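import Pool.Agent.Results.MP_177a0e_gt.VirtualInside
import Pool.Agent.Results.MP_752436_gt.OneTriplePoint

/-!
# Ribbon genus and surfaces whose double curves cross an even number of times

A link which bounds a surface of genus `g` in the 4-ball bounds a ribbon surface of genus `g` if, in
a part of the surface near the centre of the ball which contains all the local maxima, any two
different curves in the preimage of the double curves of the projection cross evenly.
-/

set_option autoImplicit false

namespace Pool.Agent.Results.MP_177a0e_gt.EvenInside

open Pool.Agent.Y468.SR
open Pool.Agent.Y874.TP (colour)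
open Pool.Agent.Y874.TP2 (kap)
open Pool.Agent.Results.MP_177a0e_gt.VirtualInside (GMovie)
open Pool.Agent.Results.MP_752436_gt.EvenCrossings
open Pool.Agent.Results.MP_752436_gt.OneTriplePoint (Std)

theorem classical_end {g n : ℕ} {D E : Code} (h : GMovie g n D E) : Classical E := by
  induction h with
  | refl D h => exact h
  | step _ _ _ ih => exact ih
  | birth _ _ _ _ ih => exact ih
  | handle _ _ _ _ _ ih => exact ih

/-- ribbon discs for `D` are added to the movie, and births are replaced by handles -/
theorem finish {g n : ℕ} {A D : Code} (h₁ : GMovie g n A D) (h' : Movie true false D []) :
    GMovie (g + n) 0 A [] := by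
  have h4 : GMovie 0 0 D [] :=
    GMovie.of_movie h' (.refl [] (classical_empty (by simp [passes])))
  suffices h : ∀ {g n : ℕ} {A B E : Code}, GMovie g n A B → GMovie 0 0 B E → GMovie g n A E from
    (h h₁ h4).trade
  intro g n A B E h h'
  induction h with
  | refl D h => exact h'
  | step h hs _ ih => exact (ih h').step h hs
  | birth h b hb _ ih => exact GMovie.birth h b hb (ih h')
  | handle x y b h _ ih => exact GMovie.handle x y b h (ih h')

/-- Let a movie of classical links with `g` handles and `n` births lead from the link with the Gauss
code `L` to a classical link `D` with pairwise different labels (`GMovie g n`). Let the components of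
`D` bound disjoint surfaces of any genus in `M × I`, `M` a 3-manifold (given by a movie of virtual link
diagrams, with births and any number of moves of type III), in such a way that, if a component is cut
by a handle, then one of the two new components passes only through crossings with colours in `Z`
(the double curves of the projection which meet `D` have colours outside `Z`), and that any two
different curves in the preimage of the double curves meeting `D` cross an even number of times.
Then `L` bounds disjoint ribbon surfaces in the 4-ball, one for each component, of total genus at most
`g + n`. -/
theorem result (L : List (List Pass)) (g n : ℕ) (Z : ℕ → Prop) (D : Code)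
    (T : List (Sym2 (ℕ × Bool))) (h₁ : GMovie g n L.zipIdx D) (hD : (D.map Prod.snd).Nodup)
    (h₂ : SurfMovie Z D T) (hZ : ∀ p ∈ passes D, ¬Z (colour p.crossing)) (hF : Few D)
    (hT : ∀ p ∈ passes D, ∀ q ∈ passes D, kap p ≠ kap q → Even (T.count s(kap p, kap q))) :
    GMovie (g + n) 0 L.zipIdx [] := by
  have hS : Std D fun e => T.count e := by
    refine ⟨classical_end h₁, hD, hF, fun C hC p hp => ?_, fun p hp q hq hpq => ?_⟩
    · have hz := hZ p hp
      have := jl_final (κ := kap p) (κ' := ((kap p).1, !(kap p).2)) hD
        (jl_movie (by intro h; simpa using congrArg Prod.snd h) hz hz h₂)
      exact (this.1 C hC).1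
    · exact (jl_final hD (jl_movie hpq (hZ p hp) (hZ q hq) h₂)).2
  exact finish h₁ (movie_mono (hS.ribbon_even hT))

end Pool.Agent.Results.MP_177a0e_gt.EvenInside
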