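import Pool.Agent.Results.MP_177a0e_gt.EvenInside

/-!
# Ribbon genus and surfaces with one triple point

A link which bounds a surface of genus `g` in the 4-ball bounds a ribbon surface of genus `g` if a
part of the surface near the centre of the ball, which contains all the local maxima, has at most one
triple point (of any kind) in the projection.
-/

set_option autoImplicit false

namespace Pool.Agent.Results.MP_177a0e_gt.OneTripleInside

open Pool.Agent.Y468.SR
open Pool.Agent.Y874.TP (colour TriAt)
open Pool.Agent.Y874.TP2 (CStep CReid prs lc kap sg om)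
open Pool.Agent.Y761.TP2
open Pool.Agent.Results.MP_177a0e_gt.VirtualInside (GMovie)
open Pool.Agent.Results.MP_752436_gt.EvenCrossings
open Pool.Agent.Results.MP_752436_gt.OneTriplePoint (Std count_inner pattern ribbon_patA ribbon_patB)

/-- `HMovie Z D T`: the virtual link with Gauss code `D` bounds disjoint connected surfaces, one for
each label, by a movie of virtual link diagrams (well-formed Gauss codes, no planarity required)
ending with the empty diagram, in which births are allowed. Crossings are named by pairs of natural
numbers coded by one number, whose first member, the colour, names a double curve of the projection.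
For each triple point of the projection (move of type III), either at least two of the three branches
of double curves through this point have colours in `Z`, or all three have colours outside `Z`; `T` is
the list of the pairs of curves in the preimage of the double curves crossing one another at the
triple points of the second kind (three pairs for each of them). A handle cuts a component into two
components bounding the same piece of surface, one of which passes only through crossings with colours
in `Z`. -/
inductive HMovie (Z : ℕ → Prop) : Code → List (Sym2 (ℕ × Bool)) → Prop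
  | nil : HMovie Z [] []
  | step {D D' : Code} {T : List (Sym2 (ℕ × Bool))} (h : WellFormed D) (hs : CStep D D')
      (hm : HMovie Z D' T) : HMovie Z D T
  | three {D D' : Code} {T : List (Sym2 (ℕ × Bool))} (h : WellFormed D)
      (A B C E : List (Pass ⊕ ℕ)) (X Y W t m b : Pass × Pass) (x y z : ℕ)
      (hT : TriAt x y z t m b) (hP : List.Perm [X, Y, W] [t, m, b])
      (hD : enc D = A ++ two X.1 X.2 ++ B ++ two Y.1 Y.2 ++ C ++ two W.1 W.2 ++ E)
      (hD' : enc D' = A ++ two X.2 X.1 ++ B ++ two Y.2 Y.1 ++ C ++ two W.2 W.1 ++ E)
      (hZ : ¬Z (colour x) ∧ ¬Z (colour y) ∧ ¬Z (colour z))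
      (hm : HMovie Z D' T) : HMovie Z D (prs x y z ++ T)
  | inner {D D' : Code} {T : List (Sym2 (ℕ × Bool))} (h : WellFormed D)
      (A B C E : List (Pass ⊕ ℕ)) (X Y W t m b : Pass × Pass) (x y z : ℕ)
      (hT : TriAt x y z t m b) (hP : List.Perm [X, Y, W] [t, m, b])
      (hD : enc D = A ++ two X.1 X.2 ++ B ++ two Y.1 Y.2 ++ C ++ two W.1 W.2 ++ E)
      (hD' : enc D' = A ++ two X.2 X.1 ++ B ++ two Y.2 Y.1 ++ C ++ two W.2 W.1 ++ E)
      (hZ : Z (colour x) ∧ Z (colour y) ∨ Z (colour x) ∧ Z (colour z) ∨
        Z (colour y) ∧ Z (colour z))
      (hm : HMovie Z D' T) : HMovie Z D T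
  | handle {R : Code} {T : List (Sym2 (ℕ × Bool))} (x y : List Pass) (b : ℕ)
      (h : WellFormed ((x ++ y, b) :: R)) (hy : ∀ p ∈ y, Z (colour p.crossing))
      (hm : HMovie Z ((x, b) :: (y, b) :: R) T) : HMovie Z ((x ++ y, b) :: R) T

/-- the case in which the theorem on movies without monogons and bigons applies -/
theorem vmovie_of {Z : ℕ → Prop} {D : Code} {T : List (Sym2 (ℕ × Bool))} (h : HMovie Z D T) :
    (∀ e ∈ T, ¬e.IsDiag) → T.Nodup → VirtualInside.VMovie Z D T := by
  induction h with
  | nil => exact fun _ _ => VirtualInside.VMovie.nil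
  | step h hs hm ih => exact fun h1 h2 => VirtualInside.VMovie.step h hs (ih h1 h2)
  | three h A B C E X Y W t m b x y z hT hP hD hD' hZ hm ih =>
    intro h1 h2
    refine VirtualInside.VMovie.three h A B C E X Y W t m b x y z hT hP hD hD' hZ
      (fun e he => h1 e (by simp [he])) h2 (ih (fun e he => h1 e (by simp [he])) ?_)
    exact (List.nodup_append.1 h2).2.1
  | inner h A B C E X Y W t m b x y z hT hP hD hD' hZ hm ih =>
    exact fun h1 h2 => VirtualInside.VMovie.inner h A B C E X Y W t m b x y z hT hP hD hD' hZ
      (ih h1 h2)
  | handle x y b h hy hm ih =>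
    exact fun h1 h2 => VirtualInside.VMovie.handle x y b h hy (ih h1 h2)

theorem jl_hmovie {κ κ' : ℕ × Bool} {Z : ℕ → Prop} (hκ : κ ≠ κ') (h1 : ¬Z κ.1) (h2 : ¬Z κ'.1)
    {D : Code} {T : List (Sym2 (ℕ × Bool))} (h : HMovie Z D T) :
    JL (T.count s(κ, κ')) (vv κ κ' D) := by
  induction h with
  | nil => exact ⟨[], by simp, by simp, fun b => PC.nil⟩
  | step h hs hm ih => exact jl_step hs ih
  | three h A B C E X Y W t m b x y z hT hP hD hD' hZ hm ih =>
    rw [List.count_append]
    exact jl_three hκ hT hP hD hD' ih
  | inner h A B C E X Y W t m b x y z hT hP hD hD' hZ hm ih =>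
    have := jl_three hκ hT hP hD hD' ih
    rwa [count_inner h1 h2 hZ, zero_add] at this
  | handle x y b h hy hm ih =>
    have e : wv κ κ' y = 1 := by
      refine wv_one fun p hp => ⟨?_, ?_⟩
      · rintro rfl
        exact h1 (hy p hp)
      · rintro rfl
        exact h2 (hy p hp)
    rw [vv_cons, vv_cons, e] at ih
    rw [vv_cons, wv_append, e, mul_one]
    exact jl_one.1 (ih.perm (List.Perm.swap _ _ _))

theorem shape {Z : ℕ → Prop} {D : Code} {T : List (Sym2 (ℕ × Bool))} (h : HMovie Z D T) :
    T.length ≤ 3 → T = [] ∨ ∃ x y z, T = prs x y z := by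
  induction h with
  | nil => exact fun _ => Or.inl rfl
  | step h hs hm ih => exact ih
  | @three D D' T h A B C E X Y W t m b x y z hT hP hD hD' hZ hm ih =>
    intro hl
    right
    refine ⟨x, y, z, ?_⟩
    simp only [prs, List.length_append, List.length_cons, List.length_nil] at hl
    rw [List.eq_nil_of_length_eq_zero (l := T) (by omega), List.append_nil]
  | inner h A B C E X Y W t m b x y z hT hP hD hD' hZ hm ih => exact ih
  | handle x y b h hy hm ih => exact ih

section
open Pool.Agent.Y874.TP2 Pool.Agent.Y874.TP2.T3 Pool.Agent.Y874.TP2.T4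
open Pool.Agent.Y874.TP hiding CStep S_REID S_REN S_THREE Inv3

/-- ribbon discs, if there are no monogons and no bigons -/
theorem ribbon_of_vmovie {Z : ℕ → Prop} {D : Code} {T : List (Sym2 (ℕ × Bool))}
    (hC : Classical D) (hD : (D.map Prod.snd).Nodup) (h₂ : VirtualInside.VMovie Z D T)
    (hZ : ∀ p ∈ passes D, ¬Z (colour p.crossing)) : Movie true false D [] := by
  obtain ⟨Ts, k1, k2, k5, k6⟩ := VirtualInside.vmovie_inv RD.reid RN.ren TH.three h₂
  rw [del_eq hZ] at k1
  have k8 : Inv3 D Ts := ⟨k1.wf, k1.ok, by rw [k2]; exact k5, by rw [k2]; exact k6, k1.inv⟩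
  exact movie_of_inv3 RD.reid CT.cut OT.out_inv Pool.Agent.Y333.TP.mid_planar
    Pool.Agent.Y514.TP.out_planar Pool.Agent.Y210.TP.move junc _ _ D Ts rfl rfl hC hD k8

end

/-- Let a movie of classical links with `g` handles and `n` births lead from the link with the Gauss
code `L` to a classical link `D` with pairwise different labels (`GMovie g n`). Let the components of
`D` bound disjoint surfaces of any genus in `M × I`, `M` a 3-manifold (given by a movie of virtual link
diagrams with births), and let `A` be a set of double curves of the projection of these surfaces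
(those with colours outside `Z`) which contains all double curves meeting `D`. Suppose that through
each triple point there pass none, one or three branches of curves of `A`, and that at most one
triple point has three of them (for example, that there is at most one triple point). Suppose
moreover that, if a component is cut by a handle, then one of the two new components passes only
through crossings not in `A`. Then `L` bounds disjoint ribbon surfaces in the 4-ball, one for each
component, of total genus at most `g + n`. -/
theorem result (L : List (List Pass)) (g n : ℕ) (Z : ℕ → Prop) (D : Code)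
    (T : List (Sym2 (ℕ × Bool))) (h₁ : GMovie g n L.zipIdx D) (hD : (D.map Prod.snd).Nodup)
    (h₂ : HMovie Z D T) (hZ : ∀ p ∈ passes D, ¬Z (colour p.crossing)) (hF : Few D)
    (hT : T.length ≤ 3) : GMovie (g + n) 0 L.zipIdx [] := by
  have hC := EvenInside.classical_end h₁
  refine EvenInside.finish h₁ ?_
  have hS : Std D fun e => T.count e := by
    refine ⟨hC, hD, hF, fun C hC p hp => ?_, fun p hp q hq hpq => ?_⟩
    · have hz := hZ p hp
      have := jl_final (κ := kap p) (κ' := ((kap p).1, !(kap p).2)) hD
        (jl_hmovie (by intro h; simpa using congrArg Prod.snd h) hz hz h₂)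
      exact (this.1 C hC).1
    · exact (jl_final hD (jl_hmovie hpq (hZ p hp) (hZ q hq) h₂)).2
  rcases shape h₂ hT with rfl | ⟨x, y, z, hx⟩
  · refine movie_mono (hS.ribbon_even fun p _ q _ _ => ?_)
    simp
  · have hlist : T = [s((colour x, true), (colour y, true)),
        s((colour x, colour x % 2 == 0), (colour z, true)),
        s((colour y, colour y % 2 == 0), (colour z, colour z % 2 == 0))] := by
      rw [hx]
      simp [prs, lc]
    rcases pattern (colour x) (colour y) (colour z) T hlist with h | h | ⟨k, h1, h2, h3⟩ |
      ⟨k, X, h1, h2, h3, h4, h5⟩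
    · exact ribbon_of_vmovie hC hD (vmovie_of h₂ h.1 h.2) hZ
    · exact movie_mono (hS.ribbon_even fun p _ q _ hpq => h _ _ hpq)
    · exact movie_mono (ribbon_patB hS h1 h2 h3)
    · exact movie_mono (ribbon_patA hS h1 h2 h3 h4 h5)

end Pool.Agent.Results.MP_177a0e_gt.OneTripleInside
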