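import Pool.Agent.Y874.TP4.Final

/-!
Ribbon genus and surfaces in `M × I`. The part of the surface inside is given by a movie of virtual
link diagrams: it lies in the product of a 3-manifold of arbitrary topology with an interval.
-/

set_option autoImplicit false

namespace Pool.Agent.Results.MP_177a0e_gt.VirtualInside

open Pool.Agent.Y468.SR Pool.Agent.Y874.TP2 Pool.Agent.Y874.TP2.T3 Pool.Agent.Y874.TP2.T4
open Pool.Agent.Y874.TP hiding CStep S_REID S_REN S_THREE Inv3

/-- `GMovie g n D D'`: a movie from the classical link `D` to the classical link `D'` with `g` handles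
and `n` births. Thus `GMovie g n [(w, 0)] []` says that the knot with Gauss code `w` bounds a surface
of genus `g` in the 4-ball with `n` local maxima of the distance from the centre, so that it is a
ribbon surface of genus `g` if `n = 0`. -/
inductive GMovie : ℕ → ℕ → Code → Code → Prop
  | refl (D : Code) (h : Classical D) : GMovie 0 0 D D
  | step {g n : ℕ} {D D' E : Code} (h : Classical D) (hs : Step true false D D')
      (hm : GMovie g n D' E) : GMovie g n D E
  | birth {g n : ℕ} {D E : Code} (h : Classical D) (b : ℕ) (hb : ∃ C ∈ D, C.2 = b)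
      (hm : GMovie g n (([], b) :: D) E) : GMovie g (n + 1) D E
  | handle {g n : ℕ} {R E : Code} (x y : List Pass) (b : ℕ) (h : Classical ((x ++ y, b) :: R))
      (hm : GMovie g n ((x, b) :: (y, b) :: R) E) : GMovie (g + 1) n ((x ++ y, b) :: R) E

theorem GMovie.of_movie {g n : ℕ} {D D' E : Code} (h : Movie true false D D')
    (hm : GMovie g n D' E) : GMovie g n D E := by
  induction h using Relation.ReflTransGen.head_induction_on with
  | refl => exact hm
  | head h _ ih => exact ih.step h.1 h.2.2

theorem classical_perm {D D' : Code} (h : D.Perm D') (hD : Classical D) : Classical D' := by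
  have hp : (passes D).Perm (passes D') := h.flatMap_right _
  refine ⟨⟨fun p hm => hp.mem_iff.1 (hD.1.1 p (hp.mem_iff.2 hm)),
    (hp.map _).nodup_iff.1 hD.1.2⟩, fun back front h1 h2 => ?_⟩
  obtain ⟨u, h3, h4⟩ := hD.2 back front (fun C hC => h1 C (h.mem_iff.1 hC))
    (fun p hm => h2 p (hp.mem_iff.1 hm))
  exact ⟨u, fun C hC => h3 C (h.mem_iff.2 hC), fun p hm => h4 p (hp.mem_iff.2 hm)⟩

/-- births are replaced by handles -/
theorem GMovie.trade {g n : ℕ} {D E : Code} (h : GMovie g n D E) : GMovie (g + n) 0 D E := by
  induction h with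
  | refl D h => exact .refl D h
  | step h hs _ ih => exact ih.step h hs
  | @birth g n D E h b hb _ ih =>
    obtain ⟨⟨x, b'⟩, hC, hb'⟩ := hb
    simp only at hb'
    subst hb'
    obtain ⟨R₁, R₂, rfl⟩ := List.append_of_mem hC
    have hp : (R₁ ++ (x, b') :: R₂).Perm ((x, b') :: (R₁ ++ R₂)) := List.perm_middle
    have h1 : Classical ((x, b') :: (R₁ ++ R₂)) := classical_perm hp h
    have hq : Classical ((x, b') :: ([], b') :: (R₁ ++ R₂)) := by
      refine ⟨⟨?_, ?_⟩, ?_⟩
      · simpa [passes] using h1.1.1
      · simpa [passes] using h1.1.2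
      · intro back front h2 h3
        obtain ⟨u, h4, h5⟩ := h1.2 back front (fun C hC => h2 C (by simp at hC ⊢; tauto))
          (fun p hm => h3 p (by simpa [passes] using hm))
        refine ⟨u, fun C hC => ?_, fun p hm => h5 p (by simpa [passes] using hm)⟩
        simp only [List.mem_cons] at hC
        rcases hC with rfl | rfl | hC
        · exact h4 _ (by simp)
        · exact ⟨(0, 0), rfl⟩
        · exact h4 _ (by simp at hC ⊢; tauto)
    have hr : ((x, b') :: ([], b') :: (R₁ ++ R₂)).Perm (([], b') :: (R₁ ++ (x, b') :: R₂)) :=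
      (List.Perm.swap _ _ _).trans (hp.symm.cons _)
    have h6 := (ih.step hq (.perm _ _ hr))
    have h7 : GMovie (g + n + 1) 0 ((x ++ [], b') :: (R₁ ++ R₂)) E :=
      GMovie.handle x [] b' (by simpa using h1) h6
    rw [List.append_nil] at h7
    exact h7.step h (.perm _ _ hp)
  | @handle g n R E x y b h _ ih =>
    have := GMovie.handle x y b h ih
    rwa [show g + n + 1 = g + 1 + n by omega] at this

/-- `VMovie Z D T`: the virtual link with Gauss code `D` bounds disjoint connected surfaces, one for
each label, by a movie of virtual link diagrams (well-formed Gauss codes, no planarity required) ending with the empty diagram,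
in which births are allowed. For each triple point of the projection (move of type III), either at
least two of the three double curves through this point have colours in `Z`, or the three double
curves have colours outside `Z`. In the surfaces, no curve of double points with colour outside `Z`
crosses itself at triple points of the second kind, and any two of these curves cross at most once at
such points; `T` is the list of the pairs of these curves crossing one another. A handle cuts a component into two
components bounding the same piece of surface, one of which passes only through crossings with colours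
in `Z`. -/
inductive VMovie (Z : ℕ → Prop) : Code → List (Sym2 (ℕ × Bool)) → Prop
  | nil : VMovie Z [] []
  | step {D D' : Code} {T : List (Sym2 (ℕ × Bool))} (h : WellFormed D) (hs : CStep D D')
      (hm : VMovie Z D' T) : VMovie Z D T
  | three {D D' : Code} {T : List (Sym2 (ℕ × Bool))} (h : WellFormed D)
      (A B C E : List (Pass ⊕ ℕ)) (X Y W t m b : Pass × Pass) (x y z : ℕ)
      (hT : TriAt x y z t m b) (hP : List.Perm [X, Y, W] [t, m, b])
      (hD : enc D = A ++ two X.1 X.2 ++ B ++ two Y.1 Y.2 ++ C ++ two W.1 W.2 ++ E)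
      (hD' : enc D' = A ++ two X.2 X.1 ++ B ++ two Y.2 Y.1 ++ C ++ two W.2 W.1 ++ E)
      (hZ : ¬Z (colour x) ∧ ¬Z (colour y) ∧ ¬Z (colour z))
      (hd : ∀ e ∈ prs x y z, ¬e.IsDiag) (hn : (prs x y z ++ T).Nodup)
      (hm : VMovie Z D' T) : VMovie Z D (prs x y z ++ T)
  | inner {D D' : Code} {T : List (Sym2 (ℕ × Bool))} (h : WellFormed D)
      (A B C E : List (Pass ⊕ ℕ)) (X Y W t m b : Pass × Pass) (x y z : ℕ)
      (hT : TriAt x y z t m b) (hP : List.Perm [X, Y, W] [t, m, b])
      (hD : enc D = A ++ two X.1 X.2 ++ B ++ two Y.1 Y.2 ++ C ++ two W.1 W.2 ++ E)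
      (hD' : enc D' = A ++ two X.2 X.1 ++ B ++ two Y.2 Y.1 ++ C ++ two W.2 W.1 ++ E)
      (hZ : Z (colour x) ∧ Z (colour y) ∨ Z (colour x) ∧ Z (colour z) ∨
        Z (colour y) ∧ Z (colour z))
      (hm : VMovie Z D' T) : VMovie Z D T
  | handle {R : Code} {T : List (Sym2 (ℕ × Bool))} (x y : List Pass) (b : ℕ)
      (h : WellFormed ((x ++ y, b) :: R)) (hy : ∀ p ∈ y, Z (colour p.crossing))
      (hm : VMovie Z ((x, b) :: (y, b) :: R) T) : VMovie Z ((x ++ y, b) :: R) T

theorem vmovie_wf {Z : ℕ → Prop} {D : Code} {T : List (Sym2 (ℕ × Bool))} (h : VMovie Z D T) :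
    WellFormed D := by
  cases h with
  | nil => exact ⟨by simp, by simp⟩
  | step h _ _ => exact h
  | three h => exact h
  | inner h => exact h
  | handle _ _ _ h => exact h

theorem vmovie_inv (hreid : S_REID) (hren : S_REN) (hthree : S_THREE) {Z : ℕ → Prop} {D : Code}
    {T : List (Sym2 (ℕ × Bool))} (h : VMovie Z D T) :
    ∃ Ts, InvB (del Z D) Ts ∧ Ts.flatMap tprs = T ∧ (∀ e ∈ T, ¬e.IsDiag) ∧ T.Nodup := by
  induction h with
  | nil =>
    refine ⟨[], ⟨?_, by simp, ?_⟩, rfl, by simp, by simp⟩
    · exact ⟨by simp [TC, del], by simp [TC, del]⟩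
    · refine ⟨id, fun p hp => absurd hp (by simp [TC, del]),
        fun p hp => absurd hp (by simp [TC, del]), fun G _ o u _ b => ?_⟩
      exact PC.nil
  | @step D D' T hD hs hm ih =>
    obtain ⟨Ts, h1, h2, h5, h6⟩ := ih
    rcases cstep_del (Z := Z) hs with h | h
    · obtain ⟨Ts', k1, k2⟩ := cstep_liftB hreid hren (wf_del hD)
        (wf_del (vmovie_wf hm)) h h1
      exact ⟨Ts', k1, (sig_flatMap k2).trans h2, h5, h6⟩
    · exact ⟨Ts, by rw [h]; exact h1, h2, h5, h6⟩
  | @three D D' T hD A B C E X Y W t m b x y z hT hP hE hE' hZ hdg hn hm ih =>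
    obtain ⟨Ts, h1, h2, h5, h6⟩ := ih
    obtain ⟨c1, c2, c3⟩ := triAt_crossing hT
    have key : ∀ {u v : ℕ} {q : Pass × Pass}, ¬Z (colour u) → ¬Z (colour v) →
        (q.1.crossing = u ∧ q.2.crossing = v ∨ q.1.crossing = v ∧ q.2.crossing = u) →
        ¬Z (colour q.1.crossing) ∧ ¬Z (colour q.2.crossing) := by
      intro u v q hu hv hq
      rcases hq with ⟨e1, e2⟩ | ⟨e1, e2⟩ <;> rw [e1, e2] <;> exact ⟨by assumption, by assumption⟩
    obtain ⟨⟨x1, x2⟩, ⟨y1, y2⟩, w1, w2⟩ := mem_three hP (P := fun q : Pass × Pass =>
      ¬Z (colour q.1.crossing) ∧ ¬Z (colour q.2.crossing)) (key hZ.1 hZ.2.1 c1)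
      (key hZ.1 hZ.2.2 c2) (key hZ.2.1 hZ.2.2 c3)
    obtain ⟨T', k1, k2⟩ := three_lift (D := del Z D) (D' := del Z D') (A := de Z A) (B := de Z B)
      (C := de Z C) (E := de Z E) hthree hT hP
      (by rw [enc_del, hE]; simp only [de_append, de_two_keep x1 x2, de_two_keep y1 y2,
        de_two_keep w1 w2])
      (by rw [enc_del, hE']; simp only [de_append, de_two_keep x2 x1, de_two_keep y2 y1,
        de_two_keep w2 w1]) h1
    have hprs : tprs T' = prs x y z := by
      simp only [sig, Prod.mk.injEq] at k2
      obtain ⟨⟨e1, e2, e3⟩, e4, e5, e6⟩ := k2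
      simp only [tprs, prs, kap, lc, Tri.pa₁, Tri.pb₁, Tri.pc₁, Pass.mate, e1, e2, e3, e4, e5, e6,
        Bool.not_true]
    refine ⟨T' :: Ts, k1, by rw [List.flatMap_cons, hprs, h2], fun e he => ?_, hn⟩
    rcases List.mem_append.1 he with he | he
    · exact hdg e he
    · exact h5 e he
  | @inner D D' T hD A B C E X Y W t m b x y z hT hP hE hE' hZ hm ih =>
    obtain ⟨c1, c2, c3⟩ := triAt_crossing hT
    have key : ∀ {u v : ℕ} {q : Pass × Pass}, (Z (colour u) ∨ Z (colour v)) →
        (q.1.crossing = u ∧ q.2.crossing = v ∨ q.1.crossing = v ∧ q.2.crossing = u) →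
        Z (colour q.1.crossing) ∨ Z (colour q.2.crossing) := by
      intro u v q hu hq
      rcases hq with ⟨e1, e2⟩ | ⟨e1, e2⟩ <;> rw [e1, e2]
      · exact hu
      · exact hu.symm
    obtain ⟨x1, y1, w1⟩ := mem_three hP (P := fun q : Pass × Pass =>
      Z (colour q.1.crossing) ∨ Z (colour q.2.crossing)) (key (by tauto) c1)
      (key (by tauto) c2) (key (by tauto) c3)
    have e : del Z D = del Z D' := by
      refine enc_inj ?_
      rw [enc_del, enc_del, hE, hE']
      simp only [de_append, de_two_swap x1, de_two_swap y1, de_two_swap w1]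
    rw [e]
    exact ih
  | @handle R T x y b hD hy hm ih =>
    obtain ⟨Ts, h1, h2, h5, h6⟩ := ih
    rw [del_cons, del_cons, dw_eq_nil hy] at h1
    rw [del_cons, dw_append, dw_eq_nil hy, List.append_nil]
    have hw : WF (passes ((dw Z x, b) :: ([], b) :: del Z R)) := by
      have := wf_del (Z := Z) (vmovie_wf hm)
      rwa [del_cons, del_cons, dw_eq_nil hy] at this
    have hw' : WF (passes (([], b) :: (dw Z x, b) :: del Z R)) := by
      simpa [passes] using hw
    have hw'' : WF (passes ((dw Z x, b) :: del Z R)) := by
      simpa [passes] using hw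
    obtain ⟨Ts₁, k1, k2⟩ := cstep_liftB hreid hren hw' hw
      (.perm _ _ (List.Perm.swap _ _ _)) h1
    obtain ⟨Ts₂, k3, k4⟩ := cstep_liftB hreid hren hw'' hw'
      (.birth b _ ⟨(dw Z x, b), by simp, rfl⟩) k1
    exact ⟨Ts₂, k3, (sig_flatMap (k4.trans k2)).trans h2, h5, h6⟩

/-- Let the knot with Gauss code `w` be classical, and let a movie of classical links with `g` handles
and `n` births lead from it to the classical link `D` with pairwise different labels. Let the
components of `D` bound disjoint surfaces (of any genus) by a movie of VIRTUAL link diagrams. Let `A`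
be a set of double curves of the projection of these surfaces (those with colours outside `Z`) which
contains all double curves meeting `D`. Suppose that through each triple point there pass none, one or
three double curves (branches) of `A`, and that, counting only the triple points with three of them,
no curve of the preimage of `A` crosses itself, and any two of these curves cross at most once.
Suppose moreover that, if a component is cut by a handle, then one of the two new components passes
only through crossings not in `A`. Then the knot bounds a ribbon surface of genus `g + n` in the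
4-ball: neither the handles nor the births nor the topology of the 3-manifold after `D` are
counted. -/
theorem result (w : List Pass) (g n : ℕ) (Z : ℕ → Prop) (D : Code) (T : List (Sym2 (ℕ × Bool)))
    (h₁ : GMovie g n [(w, 0)] D) (hC : Classical D) (hD : (D.map Prod.snd).Nodup)
    (h₂ : VMovie Z D T)
    (hZ : ∀ p ∈ passes D, ¬Z (colour p.crossing)) : GMovie (g + n) 0 [(w, 0)] [] := by
  obtain ⟨Ts, k1, k2, k5, k6⟩ := vmovie_inv RD.reid RN.ren TH.three h₂
  rw [del_eq hZ] at k1
  have k8 : Inv3 D Ts := ⟨k1.wf, k1.ok, by rw [k2]; exact k5, by rw [k2]; exact k6, k1.inv⟩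
  have h3 : Movie true false D [] :=
    movie_of_inv3 RD.reid CT.cut OT.out_inv Pool.Agent.Y333.TP.mid_planar
      Pool.Agent.Y514.TP.out_planar Pool.Agent.Y210.TP.move junc _ _ D Ts rfl rfl hC hD k8
  have h4 : GMovie 0 0 D [] :=
    GMovie.of_movie h3 (.refl [] (classical_empty (by simp [passes])))
  suffices h : ∀ {g n : ℕ} {A B E : Code}, GMovie g n A B → GMovie 0 0 B E → GMovie g n A E from
    (h h₁ h4).trade
  intro g n A B E h h'
  induction h with
  | refl D h => exact h'
  | step h hs _ ih => exact (ih h').step h hs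
  | birth h b hb _ ih => exact GMovie.birth h b hb (ih h')
  | handle x y b h _ ih => exact GMovie.handle x y b h (ih h')

end Pool.Agent.Results.MP_177a0e_gt.VirtualInside
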